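import Pool.Agent.Helper9.RC2.Goals
import Pool.Agent.Helper89.ZR.Pert

/-!
# MP_b55b7c_an: the insertion inequality (packet RC2-INS)
-/

open scoped ENNReal NNReal InnerProductSpace ComplexOrder
open Filter Topology

attribute [-instance] CStarMatrix.instAlgebra CStarMatrix.instModule CStarMatrix.instSMul
  CStarMatrix.instMulAction CStarMatrix.instDistribMulAction

set_option linter.unusedSectionVars false

noncomputable section
namespace Pool.Agent.Helper97.RC2.INS

open RC RC.Pert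

universe u

theorem le_norm_one {D : Type u} [CStarAlgebra D] [PartialOrder D] [StarOrderedRing D] (a : D)
    (ha : IsSelfAdjoint a) {c : ℝ} (hc : ‖a‖ ≤ c) : a ≤ c • (1 : D) := by
  have h1 : a ≤ algebraMap ℝ D ‖a‖ := ha.le_algebraMap_norm_self
  have h2 : algebraMap ℝ D ‖a‖ ≤ c • (1 : D) := by
    rw [Algebra.algebraMap_eq_smul_one]
    exact smul_le_smul_of_nonneg_right hc zero_le_one
  exact h1.trans h2

theorem t : InsP.{u} := by
  intro A _ _ _ κ ι ν _ _ _ _ _ _ F f₀ x δ hδ
  set S : CStarMatrix κ κ A := F * F.conjTranspose with hS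
  have hS0 : 0 ≤ S := cm_mul_conj_nonneg F
  set N : CStarMatrix κ κ A := nE δ S with hN
  set P : CStarMatrix κ κ A := cfc (fF δ) S with hP
  have hPN : P * N = 0 := FE hδ S
  have hPsa : P.conjTranspose = P := (cfc_predicate (R := ℝ) _ S : IsSelfAdjoint _).star_eq
  set Q : CStarMatrix κ κ A := 1 - P with hQ
  have hQsa : Q.conjTranspose = Q := by rw [hQ, cm_conj_sub, cm_conj_one, hPsa]
  have hQN : Q * N = N := by rw [hQ, cm_sub_mul, cm_one_mul, hPN, sub_zero]
  set G : CStarMatrix κ ι A := N * f₀ * x with hG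
  have hQG : Q * G = G := by rw [hG, ← cm_assoc, ← cm_assoc, hQN]
  have hGQ : G.conjTranspose * Q = G.conjTranspose := by
    have := congrArg CStarMatrix.conjTranspose hQG
    rwa [cm_conj_mul, hQsa] at this
  -- the norm of `Q F`
  have hnorm : ‖Q * F‖ ^ 2 ≤ 2 * δ := by
    have h2 : Q * F * (Q * F).conjTranspose = Q * S * Q := by
      rw [cm_conj_mul, hQsa, hS]
      simp only [cm_assoc]
    refine (cm_norm_sq_le (Q * F)).trans ?_
    rw [h2, hQ]
    exact oneF hδ hS0
  have hQF : (Q * F).conjTranspose * (Q * F) ≤ (2 * δ) • (1 : CStarMatrix ι ι A) := by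
    refine le_norm_one _ (IsSelfAdjoint.of_nonneg (cm_conj_mul_nonneg _)) ?_
    refine (cm_norm_mul_le _ _).trans ?_
    rw [cm_norm_conj, ← pow_two]
    exact hnorm
  have hmain := cm_conj_mul_nonneg (G + Real.sqrt 2 • (Q * F))
  have hs : Real.sqrt 2 * Real.sqrt 2 = 2 := Real.mul_self_sqrt (by norm_num)
  have e1 : (G + Real.sqrt 2 • (Q * F)).conjTranspose * (G + Real.sqrt 2 • (Q * F)) =
      G.conjTranspose * G + Real.sqrt 2 • (G.conjTranspose * F) +
        (Real.sqrt 2 • (F.conjTranspose * G) +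
          (2 : ℝ) • ((Q * F).conjTranspose * (Q * F))) := by
    rw [cm_conj_add, cm_add_mul, cm_mul_add, cm_mul_add, cm_conj_rsmul, cm_mul_rsmul,
      cm_rsmul_mul, cm_rsmul_mul, cm_mul_rsmul, smul_smul, hs,
      ← cm_assoc G.conjTranspose Q F, hGQ]
    have e3 : (Q * F).conjTranspose * G = F.conjTranspose * G := by
      rw [cm_conj_mul, hQsa, cm_assoc, hQG]
    rw [e3]
  have e2 : (F + Real.sqrt 2 • G).conjTranspose * (F + Real.sqrt 2 • G) =
      F.conjTranspose * F + Real.sqrt 2 • (F.conjTranspose * G) +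
        (Real.sqrt 2 • (G.conjTranspose * F) + (2 : ℝ) • (G.conjTranspose * G)) := by
    rw [cm_conj_add, cm_add_mul, cm_mul_add, cm_mul_add, cm_conj_rsmul, cm_mul_rsmul,
      cm_rsmul_mul, cm_rsmul_mul, cm_mul_rsmul, smul_smul, hs]
  rw [e2]
  rw [e1] at hmain
  have h4 : (2 : ℝ) • ((Q * F).conjTranspose * (Q * F)) ≤ (4 * δ) • (1 : CStarMatrix ι ι A) := by
    have := smul_le_smul_of_nonneg_left hQF (zero_le_two : (0 : ℝ) ≤ 2)
    rw [smul_smul] at this
    have h5 : (2 : ℝ) * (2 * δ) = 4 * δ := by ring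
    rwa [h5] at this
  have h6 := add_le_add hmain h4
  rw [← sub_nonneg] at h6 ⊢
  refine h6.trans (le_of_eq ?_)
  rw [two_smul ℝ (G.conjTranspose * G)]
  abel

end Pool.Agent.Helper97.RC2.INS
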